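import Pool.Agent.R319.WI3

/-!
# The pair correlation conjecture on average over the length of the window, unconditionally

No hypothesis is assumed.  Let `N*(T, b)` be the number of pairs of the problem and `N₌(T)` the
number of pairs of zeros with equal ordinates.  Then the integral over `0 ≤ b ≤ a` of the
difference between `2 N*(T, b) + N₌(T)` and its conjectural value is at most `C T log T`, uniformly
for `0 < a ≤ √(log T)`.  In particular the secondary term `π⁻² log a`, which comes from the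
repulsion factor `(sin πu / πu)²`, is found unconditionally.
-/

namespace Pool.Agent.Results.MP_f58427_nt.AverageInLength

open MeasureTheory

/-- the nontrivial zeros of zeta -/
def zeros : Set ℂ := {s : ℂ | riemannZeta s = 0 ∧ 0 < s.re ∧ s.re < 1}

/-- the nontrivial zeros of zeta with ordinate in `(0, T]` -/
def zerosTo (T : ℝ) : Set ℂ := {s : ℂ | s ∈ zeros ∧ 0 < s.im ∧ s.im ≤ T}

/-- the number `N*(T, a)` of ordered pairs of zeros, with ordinates `γ`, `γ'`, counted with
multiplicity, such that `0 < γ ≤ T` and `0 < γ - γ' ≤ 2πa / log T` -/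
noncomputable def Nstar (T a : ℝ) : ℕ :=
  ∑ᶠ s ∈ zerosTo T, ∑ᶠ s' ∈ {s' : ℂ | s' ∈ zeros ∧ 0 < s.im - s'.im ∧
    s.im - s'.im ≤ 2 * Real.pi * a / Real.log T},
    analyticOrderNatAt riemannZeta s * analyticOrderNatAt riemannZeta s'

/-- the number of ordered pairs of zeros, counted with multiplicity, with equal ordinates in
`(0, T]` -/
noncomputable def Nequal (T : ℝ) : ℕ :=
  ∑ᶠ s ∈ zerosTo T, ∑ᶠ s' ∈ {s' : ℂ | s' ∈ zeros ∧ s'.im = s.im},
    analyticOrderNatAt riemannZeta s * analyticOrderNatAt riemannZeta s'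

open Pool.Agent.R319.WB

lemma zerosTo_finite (T : ℝ) : (zerosTo T).Finite := by
  refine (ZT T).finite_toSet.subset ?_
  rintro s ⟨⟨h1, h2, h3⟩, h4, h5⟩
  rw [Finset.mem_coe, mem_ZT]
  exact ⟨h2, h3, h4, h5, h1⟩

lemma toFinset_eq (T : ℝ) : (zerosTo_finite T).toFinset = ZT T := by
  ext s
  rw [Set.Finite.mem_toFinset, mem_ZT]
  simp only [zerosTo, zeros, Set.mem_ofPred_eq]
  tauto

/-- a sum over a subset of `ZT T` -/
lemma inner_eq {T : ℝ} (p : ℂ → Prop) [DecidablePred p] (S : Set ℂ)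
    (hS : ∀ s', s' ∈ S ↔ s' ∈ ZT T ∧ p s') (f : ℂ → ℕ) :
    ∑ᶠ s' ∈ S, f s' = ∑ s' ∈ ZT T, if p s' then f s' else 0 := by
  rw [← Finset.sum_filter, ← finsum_mem_coe_finset]
  have : S = ((ZT T).filter p : Set ℂ) := by
    ext s'
    rw [Finset.coe_filter, hS]
    rfl
  rw [this]

open Pool.Agent.TH850.UV in
lemma count_eq {δ : ℝ} (hδ : ∀ s : ℂ, riemannZeta s = 0 → 0 < s.re → s.re < 1 → 0 < s.im →
    δ ≤ s.im) {T b : ℝ} (hb : 0 ≤ b * (2 * Real.pi / Real.log T))
    (hbδ : b * (2 * Real.pi / Real.log T) < δ) :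
    2 * (Nstar T b : ℝ) + Nequal T =
      W T (fun x => if |x| ≤ b * (2 * Real.pi / Real.log T) then 1 else 0) := by
  classical
  set h := b * (2 * Real.pi / Real.log T) with hh
  have e0 : 2 * Real.pi * b / Real.log T = h := by rw [hh]; ring
  have h1 : Nstar T b = ∑ s ∈ ZT T, ∑ s' ∈ ZT T, if 0 < s.im - s'.im ∧ s.im - s'.im ≤ h then
      analyticOrderNatAt riemannZeta s * analyticOrderNatAt riemannZeta s' else 0 := by
    unfold Nstar
    rw [finsum_mem_eq_finite_toFinset_sum _ (zerosTo_finite T), toFinset_eq]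
    refine Finset.sum_congr rfl fun s hs => ?_
    rw [mem_ZT] at hs
    apply inner_eq (T := T) (fun s' => 0 < s.im - s'.im ∧ s.im - s'.im ≤ h)
    intro s'
    rw [mem_ZT, e0]
    constructor
    · rintro ⟨⟨g1, g2, g3⟩, g4, g5⟩
      have := hδ s hs.2.2.2.2 hs.1 hs.2.1 hs.2.2.1
      exact ⟨⟨g2, g3, by linarith, by linarith [hs.2.2.2.1], g1⟩, g4, g5⟩
    · rintro ⟨⟨g1, g2, g3, g4, g5⟩, g6, g7⟩
      exact ⟨⟨g5, g1, g2⟩, g6, g7⟩
  have h2 : Nequal T = ∑ s ∈ ZT T, ∑ s' ∈ ZT T, if s'.im = s.im then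
      analyticOrderNatAt riemannZeta s * analyticOrderNatAt riemannZeta s' else 0 := by
    unfold Nequal
    rw [finsum_mem_eq_finite_toFinset_sum _ (zerosTo_finite T), toFinset_eq]
    refine Finset.sum_congr rfl fun s hs => ?_
    rw [mem_ZT] at hs
    apply inner_eq (T := T) (fun s' => s'.im = s.im)
    intro s'
    rw [mem_ZT]
    constructor
    · rintro ⟨⟨g1, g2, g3⟩, g4⟩
      exact ⟨⟨g2, g3, by rw [g4]; exact hs.2.2.1, by rw [g4]; exact hs.2.2.2.1, g1⟩, g4⟩
    · rintro ⟨⟨g1, g2, g3, g4, g5⟩, g6⟩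
      exact ⟨⟨g5, g1, g2⟩, g6⟩
  have h3 : (Nstar T b : ℝ) = W T (fun x => if 0 < x ∧ x ≤ h then 1 else 0) := by
    rw [h1]
    unfold W
    push_cast
    refine Finset.sum_congr rfl fun s _ => Finset.sum_congr rfl fun s' _ => ?_
    unfold mS H370.mult
    split_ifs <;> simp
  have h4 : W T (fun x => if 0 < x ∧ x ≤ h then 1 else 0) =
      W T (fun x => if 0 < -x ∧ -x ≤ h then 1 else 0) := by
    unfold W
    rw [Finset.sum_comm]
    refine Finset.sum_congr rfl fun s _ => Finset.sum_congr rfl fun s' _ => ?_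
    have e : -(s.im - s'.im) = s'.im - s.im := by ring
    simp only [e]
    ring
  have h5 : (Nequal T : ℝ) = W T (fun x => if x = 0 then 1 else 0) := by
    rw [h2]
    unfold W
    push_cast
    refine Finset.sum_congr rfl fun s _ => Finset.sum_congr rfl fun s' _ => ?_
    unfold mS H370.mult
    by_cases h6 : s'.im = s.im
    · rw [if_pos h6, if_pos (by rw [h6, sub_self])]
      simp
    · rw [if_neg h6, if_neg (fun h7 => h6 (by linarith))]
      simp
  have h6 : 2 * (Nstar T b : ℝ) + Nequal T = W T (fun x => if 0 < x ∧ x ≤ h then 1 else 0) +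
      W T (fun x => if 0 < -x ∧ -x ≤ h then 1 else 0) + W T (fun x => if x = 0 then 1 else 0) := by
    rw [← h4, ← h3, ← h5]; ring
  rw [h6]
  unfold W
  rw [← Finset.sum_add_distrib, ← Finset.sum_add_distrib]
  refine Finset.sum_congr rfl fun s _ => ?_
  rw [← Finset.sum_add_distrib, ← Finset.sum_add_distrib]
  refine Finset.sum_congr rfl fun s' _ => ?_
  rw [← mul_add, ← mul_add]
  congr 1
  set x := s.im - s'.im
  show (if 0 < x ∧ x ≤ h then (1 : ℝ) else 0) + (if 0 < -x ∧ -x ≤ h then (1 : ℝ) else 0) +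
    (if x = 0 then (1 : ℝ) else 0) = (if |x| ≤ h then (1 : ℝ) else 0)
  rcases lt_trichotomy 0 x with hx | hx | hx
  · rw [abs_of_pos hx, if_neg (show ¬ (0 < -x ∧ -x ≤ h) by rintro ⟨h7, -⟩; linarith),
      if_neg hx.ne', add_zero, add_zero]
    by_cases h8 : x ≤ h
    · rw [if_pos ⟨hx, h8⟩, if_pos h8]
    · rw [if_neg (fun h9 => h8 h9.2), if_neg h8]
  · rw [← hx, abs_zero, if_pos hb, if_pos rfl]
    simp
  · rw [abs_of_neg hx, if_neg (show ¬ (0 < x ∧ x ≤ h) by rintro ⟨h7, -⟩; linarith),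
      if_neg hx.ne, add_zero, zero_add]
    by_cases h8 : -x ≤ h
    · rw [if_pos ⟨by linarith, h8⟩, if_pos h8]
    · rw [if_neg (fun h9 => h8 h9.2), if_neg h8]

/-- **The pair correlation conjecture holds on average over the length**, unconditionally. -/
theorem result : ∃ C T₀ : ℝ, ∀ T : ℝ, T₀ ≤ T → ∀ a : ℝ, 0 < a → a ≤ Real.sqrt (Real.log T) →
    |(∫ b in (0 : ℝ)..a, (2 * (Nstar T b : ℝ) + Nequal T)) -
      T * Real.log T / (2 * Real.pi) * (∫ b in (0 : ℝ)..a, (1 + 2 * ∫ u in (0 : ℝ)..b,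
        (1 - (Real.sin (Real.pi * u) / (Real.pi * u)) ^ 2)))| ≤ C * (T * Real.log T) := by
  obtain ⟨C, T0, hC, hT0, h⟩ := mainI
  obtain ⟨δ, hδ, hord⟩ := ord_gap
  have hpi := Real.pi_pos
  obtain ⟨T3, hT3⟩ := (Real.tendsto_log_atTop.eventually_ge_atTop
    ((2 * Real.pi / δ + 1) ^ 2)).exists_forall_of_atTop
  refine ⟨C, max T0 T3, fun T hT a ha haT => ?_⟩
  have hTT : T0 ≤ T := (le_max_left _ _).trans hT
  have hT10 : 10 ≤ T := hT0.trans hTT
  have hL : 0 < Real.log T := Real.log_pos (by linarith)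
  have hL3 := hT3 T ((le_max_right _ _).trans hT)
  have haT2 : a ^ 2 ≤ Real.log T := by
    have := pow_le_pow_left₀ ha.le haT 2
    rwa [Real.sq_sqrt hL.le] at this
  have h1 := h T hTT a ha haT2
  have hau : a * (2 * Real.pi / Real.log T) < δ := by
    rw [mul_div_assoc', div_lt_iff₀ hL]
    set q := Real.sqrt (Real.log T) with hq
    have hq0 : 0 < q := Real.sqrt_pos.2 hL
    have hqq : q ^ 2 = Real.log T := Real.sq_sqrt hL.le
    have hq1 : 2 * Real.pi / δ + 1 ≤ q := by
      rw [hq]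
      apply Real.le_sqrt_of_sq_le hL3
    have hq2 : 2 * Real.pi < δ * q := by
      have : 2 * Real.pi / δ < q := by linarith
      rw [div_lt_iff₀ hδ] at this
      linarith
    rw [← hqq]
    calc a * (2 * Real.pi) ≤ q * (2 * Real.pi) := by gcongr
      _ < q * (δ * q) := by gcongr
      _ = δ * q ^ 2 := by ring
  have e1 : ∫ b in (0 : ℝ)..a, (2 * (Nstar T b : ℝ) + Nequal T) =
      ∫ b in (0 : ℝ)..a, W T (fun x => if |x| ≤ b * (2 * Real.pi / Real.log T) then 1 else 0) := by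
    refine intervalIntegral.integral_congr fun b hb => ?_
    rw [Set.uIcc_of_le ha.le] at hb
    have hu : 0 < 2 * Real.pi / Real.log T := by positivity
    refine count_eq hord (mul_nonneg hb.1 hu.le) (lt_of_le_of_lt ?_ hau)
    exact mul_le_mul_of_nonneg_right hb.2 hu.le
  rw [e1]
  exact h1

end Pool.Agent.Results.MP_f58427_nt.AverageInLength
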