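import Pool.Agent.R846.NR.Zeta

/-!
# Number rigidity of the zeros of the Riemann zeta function, unconditionally

The pair correlation conjecture asserts that the ordinates of the zeros of `ζ`, in units of the mean
spacing, are distributed like the points of the sine process (the eigenvalues of large random
unitary matrices), as far as pairs are concerned.  The conjecture implies that the limits of the
zeros are *number rigid* in the sense of Ghosh and Peres, like the sine process and unlike the
Poisson process: the points outside a window determine the number of points inside.  We prove this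
consequence without any hypothesis, in a finite form.

Let `u` denote the positions `(γ - t) log T / 2π` of the ordinates relative to `t`.  For all
`M, ε > 0` there are a nonnegative weight `φ` (an average of dyadic dilates of the Fejér kernel), with
integral `c`, and a radius `A`, such that for all large `T` and all `t ∈ [T, 2T]` outside a set of
measure `εT`, for *every* set `B ⊆ [-M, M]` the number of zeros with `u ∈ B` is
`c - ∑ φ(u) ± ε`, the sum being over the zeros with `|u| ≤ A` and `u ∉ B`.

Proof.  The mean square of `∑ φ(u) - c` is asymptotically the energy `∫ |α| |φ^(α)|² dα`; this is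
scale invariant, the interactions of the dilates `φ(x / 2^j)` decay geometrically, and so the
average of `J` of them has the energy `O(1 / J)` although it is near `1` on `[-M, M]`.
Unconditionally this asymptotic formula is known with an error term which is small for weights
varying on large scales.
-/

open MeasureTheory Set

namespace Pool.Agent.Results.MP_f58427_nt.NumberRigidity

/-- the nontrivial zeros of `ζ` in the upper half-plane -/
def zeros : Set ℂ := {s : ℂ | riemannZeta s = 0 ∧ 0 < s.re ∧ s.re < 1 ∧ 0 < s.im}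

/-- multiplicity of `s` as a zero of the Riemann zeta function (order of vanishing at `s`) -/
noncomputable def zmult (s : ℂ) : ℕ := analyticOrderNatAt riemannZeta s

/-- the position `(γ - t) log T / 2π` of the ordinate of `s` relative to `t`, in units of the mean
spacing of the ordinates near `T` -/
noncomputable def pos (T t : ℝ) (s : ℂ) : ℝ := (s.im - t) * (Real.log T / (2 * Real.pi))

/-- the number of zeros with position in `B` relative to `t`, counted with multiplicity -/
noncomputable def num (T t : ℝ) (B : Set ℝ) : ℕ := ∑ᶠ s ∈ {s : ℂ | s ∈ zeros ∧ pos T t s ∈ B}, zmult s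

/-- the sum of `φ(u)` over the zeros with position `u` outside `B`, `|u| ≤ A` -/
noncomputable def outside (φ : ℝ → ℝ) (A T t : ℝ) (B : Set ℝ) : ℝ :=
  ∑ᶠ s ∈ {s : ℂ | s ∈ zeros ∧ |pos T t s| ≤ A ∧ pos T t s ∉ B}, (zmult s : ℝ) * φ (pos T t s)

/-- the average of `J` dyadic dilates of the Fejér kernel,
`(1 / J) ∑_{j < J} (sin (π a x / 2^j) / (π a x / 2^j))²` -/
noncomputable def fejerAvg (J : ℕ) (a x : ℝ) : ℝ :=
  1 / (J : ℝ) * ∑ j ∈ Finset.range J, Real.sinc (Real.pi * (a / 2 ^ j) * x) ^ 2

open Pool.Agent.R846.NR H370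

lemma finsum_filter {T : ℝ} (hT : 1 ≤ T) (P : ℂ → Prop) [DecidablePred P]
    (hP : ∀ s, s ∈ zeros → P s → T < s.im ∧ s.im ≤ 2 * T) (f : ℂ → ℝ) :
    ∑ᶠ s ∈ {s : ℂ | s ∈ zeros ∧ P s}, f s =
      ∑ s ∈ Zf riemannZeta T (2 * T), if P s then f s else 0 := by
  classical
  have e : {s : ℂ | s ∈ zeros ∧ P s} = ↑((Zf riemannZeta T (2 * T)).filter P) := by
    ext s
    rw [Finset.coe_filter]
    simp only [Set.mem_ofPred_eq]
    rw [mem_Zf good_zeta hT]
    constructor
    · rintro ⟨h1, h2⟩
      obtain ⟨h3, h4⟩ := hP s h1 h2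
      exact ⟨⟨h1.2.1, h1.2.2.1, h3, h4, h1.1⟩, h2⟩
    · rintro ⟨⟨h1, h2, h3, h4, h5⟩, h6⟩
      exact ⟨⟨h5, h1, h2, by linarith⟩, h6⟩
  rw [e, finsum_mem_coe_finset, Finset.sum_filter]

/-- **Number rigidity of the zeros of `ζ`.**  No hypothesis is assumed.  For all `M, ε > 0` there are
`J`, `a > 0` and `A ≥ M` such that, with `φ = fejerAvg J a` and `c = ∫ φ`, for all large `T` there is
a set `E` of measure at most `ε T` such that for all `t ∈ [T, 2T]` outside `E` and every set
`B ⊆ [-M, M]`, the number of zeros with position in `B` differs from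
`c - ∑ φ(u)`, the sum being over the zeros with position `u ∉ B`, `|u| ≤ A`, by at most `ε`, and it
is the integer nearest to it. -/
theorem result (M ε : ℝ) (hM : 0 < M) (hε : 0 < ε) :
    ∃ (J : ℕ) (a A : ℝ), 0 < J ∧ 0 < a ∧ M ≤ A ∧ ∃ T₀ : ℝ, ∀ T : ℝ, T₀ ≤ T →
      ∃ E : Set ℝ, volume E ≤ ENNReal.ofReal (ε * T) ∧
        ∀ t : ℝ, T ≤ t → t ≤ 2 * T → t ∉ E → ∀ B : Set ℝ, B ⊆ Icc (-M) M →
          |(num T t B : ℝ) - ((∫ x, fejerAvg J a x) - outside (fejerAvg J a) A T t B)| ≤ ε ∧
          (num T t B : ℤ) = round ((∫ x, fejerAvg J a x) - outside (fejerAvg J a) A T t B) := by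
  classical
  set ε' : ℝ := min ε (1 / 3) with hε'
  have hε'0 : 0 < ε' := lt_min hε (by norm_num)
  have hε'1 : ε' ≤ ε := min_le_left _ _
  have hε'2 : ε' ≤ 1 / 3 := min_le_right _ _
  obtain ⟨J, a, A, T0, hJ, ha, hMA, hT0, h⟩ := rigid_block M ε' hM hε'0
  have hA : 0 < A := hM.trans_le hMA
  have hpi := Real.pi_pos
  obtain ⟨T1, hT1⟩ := ((Real.tendsto_log_atTop.eventually_ge_atTop (2 * Real.pi * A + 1)).and
    (Filter.eventually_ge_atTop (4 / ε'))).exists_forall_of_atTop
  refine ⟨J, a, A, hJ, ha, hMA, max T0 T1, fun T hT => ?_⟩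
  have hTT0 : T0 ≤ T := (le_max_left _ _).trans hT
  obtain ⟨g1, g2⟩ := hT1 T ((le_max_right _ _).trans hT)
  have hT10 : 10 ≤ T := hT0.trans hTT0
  have hTpos : 0 < T := by linarith
  obtain ⟨E, hE, hgood⟩ := h T hTT0
  set lam : ℝ := Real.log T / (2 * Real.pi) with hlam
  have hl : A < lam := by
    rw [hlam, lt_div_iff₀ (by positivity)]
    linarith
  have hl0 : 0 < lam := hA.trans hl
  refine ⟨E ∪ (Icc T (T + 1) ∪ Icc (2 * T - 1) (2 * T)), ?_, ?_⟩
  · have h1 : volume (E ∪ (Icc T (T + 1) ∪ Icc (2 * T - 1) (2 * T))) ≤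
        ENNReal.ofReal (ε' / 2 * T) + (ENNReal.ofReal 1 + ENNReal.ofReal 1) := by
      refine (measure_union_le _ _).trans (add_le_add hE ((measure_union_le _ _).trans ?_))
      rw [Real.volume_Icc, Real.volume_Icc]
      refine add_le_add (ENNReal.ofReal_le_ofReal (by linarith)) (ENNReal.ofReal_le_ofReal
        (by linarith))
    refine h1.trans ?_
    rw [← ENNReal.ofReal_add zero_le_one zero_le_one, ← ENNReal.ofReal_add (by positivity)
      (by norm_num)]
    apply ENNReal.ofReal_le_ofReal
    have h2 : 4 ≤ ε' * T := by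
      rw [div_le_iff₀ hε'0] at g2
      linarith
    have h3 : ε' * T ≤ ε * T := mul_le_mul_of_nonneg_right hε'1 hTpos.le
    linarith
  · intro t ht1 ht2 htE B hB
    simp only [Set.mem_union, Set.mem_Icc, not_or, not_and_or, not_le] at htE
    obtain ⟨hE1, hE2, hE3⟩ := htE
    have ht3 : T + 1 < t := by
      rcases hE2 with h | h
      · linarith
      · exact h
    have ht4 : t < 2 * T - 1 := by
      rcases hE3 with h | h
      · exact h
      · linarith
    have hnear : ∀ s : ℂ, |pos T t s| ≤ A → T < s.im ∧ s.im ≤ 2 * T := by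
      intro s hs
      unfold pos at hs
      rw [← hlam, abs_mul, abs_of_pos hl0] at hs
      have h1 : |s.im - t| < 1 := by
        by_contra hcon
        push Not at hcon
        nlinarith
      rw [abs_lt] at h1
      constructor <;> linarith [h1.1, h1.2]
    have e1 : (num T t B : ℝ) = numS (Zf riemannZeta T (2 * T)) mz Complex.im lam t B := by
      unfold num
      have h1 : ((∑ᶠ s ∈ {s : ℂ | s ∈ zeros ∧ pos T t s ∈ B}, zmult s : ℕ) : ℝ) =
          ∑ᶠ s ∈ {s : ℂ | s ∈ zeros ∧ pos T t s ∈ B}, (zmult s : ℝ) := by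
        have hfin : {s : ℂ | s ∈ zeros ∧ pos T t s ∈ B}.Finite := by
          apply (Zf riemannZeta T (2 * T)).finite_toSet.subset
          intro s hs
          obtain ⟨h3, h4⟩ := hnear s ((abs_le.2 (hB hs.2)).trans hMA)
          rw [Finset.mem_coe, mem_Zf good_zeta (by linarith)]
          exact ⟨hs.1.2.1, hs.1.2.2.1, h3, h4, hs.1.1⟩
        rw [finsum_mem_eq_finite_toFinset_sum _ hfin, finsum_mem_eq_finite_toFinset_sum _ hfin]
        push_cast
        rfl
      rw [h1, finsum_filter (by linarith) (fun s => pos T t s ∈ B)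
        (fun s _ hs => hnear s ((abs_le.2 (hB hs)).trans hMA))]
      unfold numS
      refine Finset.sum_congr rfl fun s _ => ?_
      congr 1
    have e2 : outside (fejerAvg J a) A T t B =
        outS (Zf riemannZeta T (2 * T)) mz Complex.im lam (phiJ J a) A t B := by
      unfold outside
      rw [finsum_filter (by linarith) (fun s => |pos T t s| ≤ A ∧ pos T t s ∉ B)
        (fun s _ hs => hnear s hs.1)]
      unfold outS
      refine Finset.sum_congr rfl fun s _ => ?_
      congr 1
    have e3 : ∫ x, fejerAvg J a x = gJ J a 0 := (wt hJ ha).total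
    rw [e1, e2, e3]
    have hfin := hgood t ht1 ht2 hE1 B hB
    refine ⟨hfin.trans hε'1, ?_⟩
    rw [← e1] at hfin
    symm
    rw [round_eq_iff]
    rw [abs_le] at hfin
    have c1 : ((num T t B : ℤ) : ℝ) = (num T t B : ℝ) := by push_cast; rfl
    rw [Set.mem_Ico, c1]
    constructor <;> linarith [hfin.1, hfin.2]

end Pool.Agent.Results.MP_f58427_nt.NumberRigidity
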