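import Pool.Agent.R346.BG.Crit3

/-!
# The pair correlation conjecture and sparse or one-sided windows, without RH

No hypothesis is assumed in the first part.  Let `D(T; α, β)` be the difference between the
normalised number of pairs of zeros in the window `[α, β]` and its conjectured value.  Call a length
`ℓ` good if one of the following holds.

* There are disjoint intervals `(p n, q n)` of positive reals, each to the left of the next one, with
  `∑ ((q n - p n) / q n)² = ∞`, such that for each window `[a, a + ℓ]` inside the `n`-th interval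
  `|D|` is at most `C exp (-c (q n - p n)) + o(1)`.
* For all distant windows `[a, a + ℓ]` there is a one-sided bound, an upper bound or a lower bound,
  for `D` with an error `C exp (-c a) + o(1)`.

Let `Λ` be a set of lengths which generates a dense group (for instance two incommensurable
lengths).  The conjecture (the asymptotic formula for `N*(T, a)` for every `a > 0`) holds if and only
if almost all the zeros are on the critical line and every length in `Λ` is good.  If almost all
the zeros are on the critical line, then there is a version for sequences of values of `T`, and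
if `γ > 0` belongs to the group generated by the good lengths, the discrepancy of `N*` is at most
`(π² / 9) γ³` for every `a`.
-/

open Filter Topology

namespace Pool.Agent.Results.MP_f58427_nt.SparseNoRH

/-- the nontrivial zeros of zeta -/
def zeros : Set ℂ := {s : ℂ | riemannZeta s = 0 ∧ 0 < s.re ∧ s.re < 1}

/-- the nontrivial zeros of zeta with ordinate in `(0, T]` -/
def zerosTo (T : ℝ) : Set ℂ := {s : ℂ | s ∈ zeros ∧ 0 < s.im ∧ s.im ≤ T}

/-- the number of the zeros off the critical line with ordinate in `(0, T]`, with multiplicity -/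
noncomputable def Noff (T : ℝ) : ℕ :=
  ∑ᶠ s ∈ {s : ℂ | s ∈ zerosTo T ∧ s.re ≠ 1 / 2}, analyticOrderNatAt riemannZeta s

/-- the number `N*(T, a)` of ordered pairs of zeros, with ordinates `γ`, `γ'`, counted with
multiplicity, such that `0 < γ ≤ T` and `0 < γ - γ' ≤ 2πa / log T` -/
noncomputable def Nstar (T a : ℝ) : ℕ :=
  ∑ᶠ s ∈ zerosTo T, ∑ᶠ s' ∈ {s' : ℂ | s' ∈ zeros ∧ 0 < s.im - s'.im ∧
    s.im - s'.im ≤ 2 * Real.pi * a / Real.log T},
    analyticOrderNatAt riemannZeta s * analyticOrderNatAt riemannZeta s'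

/-- the number of ordered pairs of zeros with ordinates `γ, γ' ∈ (0, T]`, counted with
multiplicity, such that `α ≤ (γ - γ') log T / 2π ≤ β` -/
noncomputable def Nwin (T α β : ℝ) : ℕ :=
  ∑ᶠ s ∈ zerosTo T, ∑ᶠ s' ∈ {s' : ℂ | s' ∈ zerosTo T ∧
    α ≤ (s.im - s'.im) * Real.log T / (2 * Real.pi) ∧
    (s.im - s'.im) * Real.log T / (2 * Real.pi) ≤ β},
    analyticOrderNatAt riemannZeta s * analyticOrderNatAt riemannZeta s'

/-- the pair correlation function `1 - (sin πu / πu)²` -/
noncomputable def F (u : ℝ) : ℝ := 1 - (Real.sin (Real.pi * u) / (Real.pi * u)) ^ 2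

/-- the discrepancy of `N*`: `N*(T, a) / (T log T / 2π) - ∫_0^a F` -/
noncomputable def Dstar (T a : ℝ) : ℝ :=
  Nstar T a / (T * Real.log T / (2 * Real.pi)) - ∫ u in (0 : ℝ)..a, F u

/-- the discrepancy of the window `[α, β]` (for `α > 0`) -/
noncomputable def D (T α β : ℝ) : ℝ :=
  Nwin T α β / (T * Real.log T / (2 * Real.pi)) - ∫ u in α..β, F u

/-- the pair correlation conjecture along the filter `l` of values of `T` (for `l = atTop` it is the
conjecture itself) -/
def PCC (l : Filter ℝ) : Prop := ∀ a : ℝ, 0 < a →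
  Tendsto (fun T : ℝ => (Nstar T a : ℝ) / (T * Real.log T)) l
    (𝓝 (1 / (2 * Real.pi) * ∫ u in (0 : ℝ)..a, F u))

/-- control of the windows of length `ℓ` inside a sparse sequence of intervals: there are intervals
`(p n, q n)` of positive numbers, each to the left of the next one, with
`∑ ((q n - p n) / q n)² = ∞`, and constants `C, c > 0`, such that for every `n` and every window
`[a, a + ℓ]` inside `(p n, q n)` one has `|D(T; a, a + ℓ)| ≤ C exp (-c (q n - p n)) + o(1)` along
`l` -/
def Sparse (l : Filter ℝ) (ℓ : ℝ) : Prop := ∃ (p q : ℕ → ℝ) (C c : ℝ), 0 < C ∧ 0 < c ∧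
  (∀ n, 0 < p n) ∧ (∀ n, p n < q n) ∧ (∀ n, q n ≤ p (n + 1)) ∧
  (¬ Summable fun n => ((q n - p n) / q n) ^ 2) ∧ ∀ n a, p n < a → a + ℓ < q n →
    ∀ ε : ℝ, 0 < ε → ∀ᶠ T in l, |D T a (a + ℓ)| ≤ C * Real.exp (-(c * (q n - p n))) + ε

/-- the one-sided bound for distant windows of length `ℓ`: for some `C, c, A > 0` and every
`a ≥ A` one has `s D(T; a, a + ℓ) ≤ C exp (-c a) + o(1)` along `l`.  For `s = 1` it is an upper bound
for `D`, for `s = -1` a lower bound. -/
def OneSided (l : Filter ℝ) (ℓ s : ℝ) : Prop := ∃ C c A : ℝ, 0 < C ∧ 0 < c ∧ 0 < A ∧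
  ∀ a : ℝ, A ≤ a → ∀ ε : ℝ, 0 < ε → ∀ᶠ T in l, s * D T a (a + ℓ) ≤ C * Real.exp (-(c * a)) + ε

/-- good lengths -/
def Good (l : Filter ℝ) (ℓ : ℝ) : Prop := Sparse l ℓ ∨ OneSided l ℓ 1 ∨ OneSided l ℓ (-1)

/-- almost all the zeros are on the critical line -/
def AlmostAllCritical : Prop :=
  Tendsto (fun T : ℝ => (Noff T : ℝ) / (T * Real.log T)) atTop (𝓝 0)

/-- **Theorem.**  (1) Let `Λ` be a set of positive lengths which generates a dense subgroup of the
real line.  The pair correlation conjecture holds if and only if almost all the zeros are on the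
critical line and every `ℓ ∈ Λ` is good.  (2) Assume that almost all the zeros are on the critical
line.  Let `l` be a filter finer than `T → ∞` (for instance `T → ∞` itself, or a sequence of values
of `T`), and let `Λ` be a set of positive lengths.  If every `ℓ ∈ Λ` is good along `l`, then
`|N*(T, a) / (T log T / 2π) - ∫_0^a F| ≤ (π² / 9) γ³ + o(1)` along `l` for all `a > 0` and every
`γ > 0` in the group generated by `Λ`.  If `Λ` generates a dense subgroup, then the pair correlation
conjecture holds along `l` if and only if every `ℓ ∈ Λ` is good along `l`. -/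
theorem result :
    (∀ Λ : Set ℝ, (∀ ℓ ∈ Λ, 0 < ℓ) → Dense (AddSubgroup.closure Λ : Set ℝ) →
      (PCC atTop ↔ (AlmostAllCritical ∧ ∀ ℓ ∈ Λ, Good atTop ℓ))) ∧
    (AlmostAllCritical → ∀ l : Filter ℝ, l ≤ atTop → ∀ Λ : Set ℝ, (∀ ℓ ∈ Λ, 0 < ℓ) →
      ((∀ ℓ ∈ Λ, Good l ℓ) → ∀ γ ∈ AddSubgroup.closure Λ, 0 < γ → ∀ a : ℝ, 0 < a →
        ∀ ε : ℝ, 0 < ε → ∀ᶠ T in l, |Dstar T a| ≤ Real.pi ^ 2 / 9 * γ ^ 3 + ε) ∧
      (Dense (AddSubgroup.closure Λ : Set ℝ) → (PCC l ↔ ∀ ℓ ∈ Λ, Good l ℓ))) :=
  ⟨fun Λ hpos hd => Pool.Agent.R346.BG.Cr.S.main_unc Λ hpos hd,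
    fun h l hl Λ hpos => Pool.Agent.R346.BG.Cr.S.main h l hl Λ hpos⟩

end Pool.Agent.Results.MP_f58427_nt.SparseNoRH
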